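import Mathlib
import Pool.Agent.H42.Dom4
import Pool.Agent.V11242.FS.Forced
import Pool.Agent.W684.FM.Ambient
import Pool.Agent.U946.FreeTree
import Pool.Agent.U946.NoFree

/-!
# Finite powers and `S₁(D_Ω, D_Ω)`: the question Q1 is independent of ZFC

* The property `S₁(D_Ω, D_Ω)` is preserved by finite powers if and only if there are no free Suslin
  trees.
* Some ccc forcing notion adds a free Suslin tree; then there is a zero-dimensional Hausdorff space
  with `S₁(D_Ω, D_Ω)` the square of which fails even `S_fin(D_Ω, D_Ω)`.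
* Some forcing notion forces Martin's axiom for `ℵ₁` dense sets; this axiom excludes free Suslin
  trees, and then all finite powers of all spaces with `S₁(D_Ω, D_Ω)` have this property.

The forcing language is the one of `Pool.Agent.Helper669.Forcing`: a sentence is the set of the
conditions which force it. `PhiN P K` is the translation of `Phi K` (both in
`Pool.Agent.V11242.FS.Defs`) and `MartinHolds P Om1` is the translation of `MartinFor Om1` (both in
`Pool.Agent.W684.FM.Defs`).
-/

set_option autoImplicit false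

namespace Pool.Agent.Results.MP_9098dd_gt.Q1Independent

open Cardinal Pool.Agent.H42.Dom Pool.Agent.V11242.FS Pool.Agent.W684
  Pool.Agent.Helper669.Forcing Pool.Agent.W684.FM

universe u

theorem neg (h : ∃ (T : Type) (_ : PartialOrder T), FreeSuslin T) :
    ∃ (X : Type) (_ : TopologicalSpace X), T2Space X ∧
      TopologicalSpace.IsTopologicalBasis {s : Set X | IsClopen s} ∧
      S1 X ∧ ¬ S1 (Fin 2 → X) ∧ ¬ Sfin (Fin 2 → X) := by
  obtain ⟨T, _, hT⟩ := h
  have hf : ¬ @Sfin (Fin 2 → Flag T) (@Pi.topologicalSpace _ _ fun _ => top T) := fun h =>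
    not_sq hT ((@sfin_iff _ (_)).1 h)
  refine ⟨Flag T, Pool.Agent.H42.Dom.top T, t2 hT, zerodim hT, sel_tree hT, fun h => hf ?_, hf⟩
  exact (@sfin_iff _ (_)).2 (@sel_weak _ (_) _ ((@s1_iff _ (_)).1 h))

theorem result :
    -- (1) there is a ccc forcing which forces that there is a free Suslin tree on `K × ℕ`
    (∃ (K P : Type) (_ : LinearOrder K) (_ : WellFoundedLT K) (_ : NoMaxOrder K) (_ : Preorder P),
      (∀ k : K, (Set.Iic k).Countable) ∧ Nonempty P ∧
      (∀ A : Set P, (∀ p ∈ A, ∀ q ∈ A, p ≠ q → ¬ ∃ r, r ≤ p ∧ r ≤ q) → A.Countable) ∧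
      ∀ p : P, p ∈ PhiN P K) ∧
    -- (2) such a tree gives a counterexample
    (∀ (K : Type) [LinearOrder K] [WellFoundedLT K] [NoMaxOrder K],
      (∀ k : K, (Set.Iic k).Countable) → Phi K →
      ∃ (X : Type) (_ : TopologicalSpace X), T2Space X ∧
        TopologicalSpace.IsTopologicalBasis {s : Set X | IsClopen s} ∧
        S1 X ∧ ¬ S1 (Fin 2 → X) ∧ ¬ Sfin (Fin 2 → X)) ∧
    -- (3) there is a forcing which forces Martin's axiom for `ℵ₁` dense sets
    (∃ (P : Type) (_ : Preorder P), Nonempty P ∧ ∀ p : P,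
      p ∈ CardinalsPreserved.{0, 0} P ∧ p ∈ OmegaOnePreserved P ∧ p ∈ MartinHolds P Om1) ∧
    -- (4) Martin's axiom for `ℵ₁` dense sets gives the positive answer
    ((MartinFor Om1 ↔ MartinAxiomAleph1) ∧
      (MartinAxiomAleph1 → ∀ (X : Type u) [TopologicalSpace X] (k : ℕ), S1 X → S1 (Fin k → X))) ∧
    -- (5) the exact condition
    ((∀ (X : Type) [TopologicalSpace X] (k : ℕ), S1 X → S1 (Fin k → X)) ↔
      ¬ ∃ (T : Type) (_ : PartialOrder T), FreeSuslin T) ∧
    ((¬ ∃ (T : Type) (_ : PartialOrder T), FreeSuslin T) →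
      ∀ (X : Type u) [TopologicalSpace X] (k : ℕ), S1 X → S1 (Fin k → X)) := by
  have hpos : (¬ ∃ (T : Type) (_ : PartialOrder T), FreeSuslin T) →
      ∀ (X : Type u) [TopologicalSpace X] (k : ℕ), S1 X → S1 (Fin k → X) := fun hn X _ k h =>
    s1_iff.2 (Pool.Agent.H42.Dom.pos hn (s1_iff.1 h) k)
  refine ⟨Pool.Agent.V11242.FS.exists_forcing, ?_, Pool.Agent.W684.FM.exists_forcing Om1,
    ⟨martinFor_om1_iff, fun h => hpos (Pool.Agent.U946.NF.no_free h)⟩, ⟨?_, ?_⟩, hpos⟩
  · intro K _ _ _ hI h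
    exact neg (Pool.Agent.U946.FT.free_of_phi hI h)
  · intro h hT
    obtain ⟨X, tX, -, -, h1, h2, -⟩ := neg hT
    exact h2 (h X 2 h1)
  · intro hn X _ k h
    exact s1_iff.2 (Pool.Agent.H42.Dom.pos hn (s1_iff.1 h) k)

end Pool.Agent.Results.MP_9098dd_gt.Q1Independent
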